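import Pool.Agent.L7h25.SY.Pf

set_option autoImplicit false

/-! Project SY, part EUL: cross products, collinear points, the next vertex on a facet. -/

namespace Pool.Agent.L7h25.SY

open Pool.Agent.L7h98.SY
open scoped InnerProductSpace
open Module Classical

/-- cross product -/
noncomputable def cr (a b : E3) : E3 :=
  !₂[a 1 * b 2 - a 2 * b 1, a 2 * b 0 - a 0 * b 2, a 0 * b 1 - a 1 * b 0]

lemma cr0 (a b : E3) : cr a b 0 = a 1 * b 2 - a 2 * b 1 := by simp [cr]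
lemma cr1 (a b : E3) : cr a b 1 = a 2 * b 0 - a 0 * b 2 := by simp [cr]
lemma cr2 (a b : E3) : cr a b 2 = a 0 * b 1 - a 1 * b 0 := by simp [cr]

lemma in3 (x y : E3) : ⟪x, y⟫_ℝ = x 0 * y 0 + x 1 * y 1 + x 2 * y 2 := by
  rw [PiLp.inner_apply, Fin.sum_univ_three]
  simp only [RCLike.inner_apply, conj_trivial]
  ring

/-- determinant -/
noncomputable def dt (a b c : E3) : ℝ := ⟪cr a b, c⟫_ℝ

lemma dt_eq (a b c : E3) : dt a b c = (a 1 * b 2 - a 2 * b 1) * c 0 +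
    (a 2 * b 0 - a 0 * b 2) * c 1 + (a 0 * b 1 - a 1 * b 0) * c 2 := by
  unfold dt
  rw [in3, cr0, cr1, cr2]

lemma dt_swap (a b c : E3) : dt a b c = - dt a c b := by
  rw [dt_eq, dt_eq]; ring

lemma dt_self1 (a b : E3) : dt a b a = 0 := by rw [dt_eq]; ring
lemma dt_self2 (a b : E3) : dt a b b = 0 := by rw [dt_eq]; ring

lemma ext3 {x y : E3} (h0 : x 0 = y 0) (h1 : x 1 = y 1) (h2 : x 2 = y 2) : x = y := by
  ext i
  fin_cases i
  · exact h0
  · exact h1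
  · exact h2

/-- a vector orthogonal to `a` and `b` is parallel to the cross product -/
lemma par {a b u : E3} (ha : ⟪u, a⟫_ℝ = 0) (hb : ⟪u, b⟫_ℝ = 0) :
    ⟪cr a b, cr a b⟫_ℝ • u = ⟪cr a b, u⟫_ℝ • cr a b := by
  rw [in3] at ha hb
  have e : ⟪cr a b, cr a b⟫_ℝ = (a 1 * b 2 - a 2 * b 1) * (a 1 * b 2 - a 2 * b 1) +
      (a 2 * b 0 - a 0 * b 2) * (a 2 * b 0 - a 0 * b 2) +
      (a 0 * b 1 - a 1 * b 0) * (a 0 * b 1 - a 1 * b 0) := by
    rw [in3, cr0, cr1, cr2]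
  have e' : ⟪cr a b, u⟫_ℝ = (a 1 * b 2 - a 2 * b 1) * u 0 + (a 2 * b 0 - a 0 * b 2) * u 1 +
      (a 0 * b 1 - a 1 * b 0) * u 2 := by
    rw [in3, cr0, cr1, cr2]
  rw [e, e']
  apply ext3
  · simp only [PiLp.smul_apply, smul_eq_mul, cr0]
    linear_combination (b 1 * (a 0 * b 1 - a 1 * b 0) - b 2 * (a 2 * b 0 - a 0 * b 2)) * ha -
      (a 1 * (a 0 * b 1 - a 1 * b 0) - a 2 * (a 2 * b 0 - a 0 * b 2)) * hb
  · simp only [PiLp.smul_apply, smul_eq_mul, cr1]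
    linear_combination (b 2 * (a 1 * b 2 - a 2 * b 1) - b 0 * (a 0 * b 1 - a 1 * b 0)) * ha -
      (a 2 * (a 1 * b 2 - a 2 * b 1) - a 0 * (a 0 * b 1 - a 1 * b 0)) * hb
  · simp only [PiLp.smul_apply, smul_eq_mul, cr2]
    linear_combination (b 0 * (a 2 * b 0 - a 0 * b 2) - b 1 * (a 1 * b 2 - a 2 * b 1)) * ha -
      (a 0 * (a 2 * b 0 - a 0 * b 2) - a 1 * (a 1 * b 2 - a 2 * b 1)) * hb

/-- two different points on a plane not through the origin are independent -/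
lemma cr_ne {h a b : E3} (ha : ⟪h, a⟫_ℝ = 1) (hb : ⟪h, b⟫_ℝ = 1) (hab : a ≠ b) : cr a b ≠ 0 := by
  intro h0
  apply hab
  have e0 : cr a b 0 = 0 := by rw [h0]; rfl
  have e1 : cr a b 1 = 0 := by rw [h0]; rfl
  have e2 : cr a b 2 = 0 := by rw [h0]; rfl
  rw [cr0] at e0
  rw [cr1] at e1
  rw [cr2] at e2
  rw [in3] at ha hb
  apply ext3
  · linear_combination (-(a 0)) * hb + b 0 * ha + h 1 * e2 - h 2 * e1
  · linear_combination (-(a 1)) * hb + b 1 * ha + h 2 * e0 - h 0 * e2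
  · linear_combination (-(a 2)) * hb + b 2 * ha + h 0 * e1 - h 1 * e0

lemma self_pos {n : E3} (hn : n ≠ 0) : 0 < ⟪n, n⟫_ℝ := by
  rw [real_inner_self_eq_norm_sq]
  have := norm_pos_iff.2 hn
  positivity

/-- no three vertices are on a line -/
lemma no_line {V H : Finset E3} (hp : Pair V H) {a b v : E3} (ha : a ∈ V) (hb : b ∈ V)
    (hv : v ∈ V) (hab : a ≠ b) (hva : v ≠ a) (hvb : v ≠ b) (c : ℝ) : v ≠ a + c • (b - a) := by
  intro he
  have key : ∀ y : E3, ⟪y, v⟫_ℝ = ⟪y, a⟫_ℝ + c * (⟪y, b⟫_ℝ - ⟪y, a⟫_ℝ) := by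
    intro y
    rw [he, inner_add_right, inner_smul_right, inner_sub_right]
  rcases lt_or_ge c 0 with hc | hc
  · obtain ⟨y, h1, h2⟩ := hp.expV a ha
    have k := key y
    have k1 := h2 v hv hva
    have k2 := h2 b hb hab.symm
    rw [h1] at k
    nlinarith
  · rcases lt_or_ge 1 c with hc1 | hc1
    · obtain ⟨y, h1, h2⟩ := hp.expV b hb
      have k := key y
      have k1 := h2 v hv hvb
      have k2 := h2 a ha hab
      rw [h1] at k
      nlinarith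
    · obtain ⟨y, h1, h2⟩ := hp.expV v hv
      have k := key y
      have k1 := h2 a ha hva.symm
      have k2 := h2 b hb hvb.symm
      rw [h1] at k
      rcases hc.eq_or_lt with h0 | h0
      · rw [← h0] at k
        linarith
      · have m1 := mul_pos h0 (sub_pos.2 k2)
        have m2 := mul_nonneg (sub_nonneg.2 hc1) (sub_pos.2 k1).le
        nlinarith

lemma mT {A : Finset E3} {y x : E3} : x ∈ T A y ↔ x ∈ A ∧ ⟪y, x⟫_ℝ = 1 := Finset.mem_filter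

/-- two facets have at most two common vertices -/
lemma col {V H : Finset E3} (hp : Pair V H) {h k a b v : E3} (hhk : h ≠ k)
    (hab : a ≠ b) (ha : a ∈ T V h) (ha' : a ∈ T V k) (hb : b ∈ T V h) (hb' : b ∈ T V k)
    (hv : v ∈ T V h) (hv' : v ∈ T V k) : v = a ∨ v = b := by
  by_contra hcon
  push Not at hcon
  obtain ⟨c1, c2⟩ := hcon
  rw [mT] at ha ha' hb hb' hv hv'
  have hn : cr h k ≠ 0 := cr_ne (h := a) (by rw [real_inner_comm]; exact ha.2)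
    (by rw [real_inner_comm]; exact ha'.2) hhk
  have hN := self_pos hn
  have p1 := par (a := h) (b := k) (u := v - a)
    (by rw [inner_sub_left, real_inner_comm, hv.2, real_inner_comm, ha.2, sub_self])
    (by rw [inner_sub_left, real_inner_comm, hv'.2, real_inner_comm, ha'.2, sub_self])
  have p2 := par (a := h) (b := k) (u := b - a)
    (by rw [inner_sub_left, real_inner_comm, hb.2, real_inner_comm, ha.2, sub_self])
    (by rw [inner_sub_left, real_inner_comm, hb'.2, real_inner_comm, ha'.2, sub_self])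
  set N := ⟪cr h k, cr h k⟫_ℝ with hNdef
  set s := ⟪cr h k, v - a⟫_ℝ with hs
  set t := ⟪cr h k, b - a⟫_ℝ with ht
  have ht0 : t ≠ 0 := by
    intro h0
    rw [h0, zero_smul] at p2
    rcases smul_eq_zero.1 p2 with h1 | h1
    · exact hN.ne' h1
    · exact hab (sub_eq_zero.1 h1).symm
  refine no_line hp ha.1 hb.1 hv.1 hab c1 c2 (s / t) ?_
  have p3 : N • (v - a) = N • ((s / t) • (b - a)) := by
    rw [p1, smul_comm, p2, smul_smul, div_mul_cancel₀ _ ht0]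
  have p4 := smul_right_injective E3 hN.ne' p3
  rw [← p4]
  abel

/-- product of two determinants -/
lemma gram (c y h p q v : E3) : dt c y h * dt p q v =
    ⟪c, p⟫_ℝ * (⟪y, q⟫_ℝ * ⟪h, v⟫_ℝ - ⟪y, v⟫_ℝ * ⟪h, q⟫_ℝ) -
    ⟪c, q⟫_ℝ * (⟪y, p⟫_ℝ * ⟪h, v⟫_ℝ - ⟪y, v⟫_ℝ * ⟪h, p⟫_ℝ) +
    ⟪c, v⟫_ℝ * (⟪y, p⟫_ℝ * ⟪h, q⟫_ℝ - ⟪y, q⟫_ℝ * ⟪h, p⟫_ℝ) := by
  rw [dt_eq, dt_eq]
  simp only [in3]
  ring

/-- three different vertices of a facet are independent -/
lemma dt_ne {V H : Finset E3} (hp : Pair V H) {h v b x : E3} (hv : v ∈ T V h) (hb : b ∈ T V h)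
    (hx : x ∈ T V h) (hvb : v ≠ b) (hxv : x ≠ v) (hxb : x ≠ b) : dt v b x ≠ 0 := by
  intro h0
  rw [mT] at hv hb hx
  have q1 : ⟪h, b - v⟫_ℝ = 0 := by rw [inner_sub_right, hb.2, hv.2, sub_self]
  have q2 : ⟪h, x - v⟫_ℝ = 0 := by rw [inner_sub_right, hx.2, hv.2, sub_self]
  have p1 := par q1 q2
  set n := cr (b - v) (x - v) with hn
  have e1 : ⟪n, v⟫_ℝ = 0 := by
    rw [← h0]
    show dt (b - v) (x - v) v = dt v b x
    rw [dt_eq, dt_eq]
    simp only [PiLp.sub_apply]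
    ring
  have e2 : ⟪n, n⟫_ℝ = 0 := by
    have e3 := congrArg (fun z => ⟪z, v⟫_ℝ) p1
    simp only [real_inner_smul_left, e1, hv.2, mul_one, mul_zero] at e3
    exact e3
  have e3 : n = 0 := inner_self_eq_zero.1 e2
  -- `x - v` is a multiple of `b - v`
  have hbv : b - v ≠ 0 := sub_ne_zero.2 hvb.symm
  have hB := self_pos hbv
  refine no_line hp hv.1 hb.1 hx.1 hvb hxv hxb (⟪b - v, x - v⟫_ℝ / ⟪b - v, b - v⟫_ℝ) ?_
  have e4 : ⟪b - v, b - v⟫_ℝ • (x - v) = ⟪b - v, x - v⟫_ℝ • (b - v) := by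
    have f0 : cr (b - v) (x - v) 0 = 0 := by rw [← hn, e3]; rfl
    have f1 : cr (b - v) (x - v) 1 = 0 := by rw [← hn, e3]; rfl
    have f2 : cr (b - v) (x - v) 2 = 0 := by rw [← hn, e3]; rfl
    rw [cr0] at f0
    rw [cr1] at f1
    rw [cr2] at f2
    generalize b - v = p at *
    generalize x - v = q at *
    simp only [in3]
    apply ext3
    · simp only [PiLp.smul_apply, smul_eq_mul]
      linear_combination p 2 * f1 - p 1 * f2
    · simp only [PiLp.smul_apply, smul_eq_mul]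
      linear_combination p 0 * f2 - p 2 * f0
    · simp only [PiLp.smul_apply, smul_eq_mul]
      linear_combination p 1 * f0 - p 0 * f1
  have e5 : x - v = (⟪b - v, x - v⟫_ℝ / ⟪b - v, b - v⟫_ℝ) • (b - v) := by
    rw [div_eq_inv_mul, mul_smul, ← e4, smul_smul, inv_mul_cancel₀ hB.ne', one_smul]
  rw [← e5]
  abel

/-- `b` is the next vertex after `v` on the facet `h` -/
def R (V : Finset E3) (h v b : E3) : Prop :=
  v ∈ T V h ∧ b ∈ T V h ∧ b ≠ v ∧ ∀ x ∈ T V h, x ≠ v → x ≠ b → 0 < dt v b x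

lemma next {V H : Finset E3} (hb : S_BAS) (hp : Pair V H) {h v : E3} (hh : h ∈ H)
    (hv : v ∈ T V h) : ∃ b, R V h v b := by
  have hcard := (hb V H hp).2.1 h hh
  have hv' := mT.1 hv
  obtain ⟨y, hy1, hy2⟩ := hp.expV v hv'.1
  have hne : ((T V h).erase v).Nonempty := by
    rw [← Finset.card_pos, Finset.card_erase_of_mem hv]
    omega
  have hyh : y ≠ h := by
    rintro rfl
    obtain ⟨x, hx⟩ := hne
    have h1 := Finset.mem_erase.1 hx
    have h2 := mT.1 h1.2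
    exact (hy2 x h2.1 h1.1).ne h2.2
  have hc : cr y h ≠ 0 := cr_ne (h := v) (by rw [real_inner_comm]; exact hy1)
    (by rw [real_inner_comm]; exact hv'.2) hyh
  have hN := self_pos hc
  set c := cr y h with hcdef
  obtain ⟨b, hb1, hb2⟩ := Finset.exists_min_image ((T V h).erase v)
    (fun x => ⟪c, x - v⟫_ℝ / (1 - ⟪y, x⟫_ℝ)) hne
  have hb3 := Finset.mem_erase.1 hb1
  refine ⟨b, hv, hb3.2, hb3.1, fun x hx hxv hxb => ?_⟩
  have hx1 := mT.1 hx
  have hb4 := mT.1 hb3.2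
  have s1 := hb2 x (Finset.mem_erase.2 ⟨hxv, hx⟩)
  have qx : 0 < 1 - ⟪y, x⟫_ℝ := by linarith [hy2 x hx1.1 hxv]
  have qb : 0 < 1 - ⟪y, b⟫_ℝ := by linarith [hy2 b hb4.1 hb3.1]
  have s2 : ⟪c, b - v⟫_ℝ * (1 - ⟪y, x⟫_ℝ) ≤ ⟪c, x - v⟫_ℝ * (1 - ⟪y, b⟫_ℝ) :=
    (div_le_div_iff₀ qb qx).1 s1
  have g := gram c y h (b - v) (x - v) v
  have g1 : ⟪h, b - v⟫_ℝ = 0 := by rw [inner_sub_right, hb4.2, hv'.2, sub_self]
  have g2 : ⟪h, x - v⟫_ℝ = 0 := by rw [inner_sub_right, hx1.2, hv'.2, sub_self]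
  have g3 : ⟪y, b - v⟫_ℝ = ⟪y, b⟫_ℝ - 1 := by rw [inner_sub_right, hy1]
  have g4 : ⟪y, x - v⟫_ℝ = ⟪y, x⟫_ℝ - 1 := by rw [inner_sub_right, hy1]
  have g5 : dt c y h = ⟪c, c⟫_ℝ := by
    rw [dt_eq, in3, hcdef, cr0, cr1, cr2]
    ring
  have g6 : dt (b - v) (x - v) v = dt v b x := by
    rw [dt_eq, dt_eq]
    simp only [PiLp.sub_apply]
    ring
  rw [g1, g2, g3, g4, g5, g6, hv'.2, hy1] at g
  have g7 : 0 ≤ ⟪c, c⟫_ℝ * dt v b x := by
    rw [g]
    nlinarith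
  have g8 : 0 ≤ dt v b x := nonneg_of_mul_nonneg_right g7 hN
  exact lt_of_le_of_ne g8 (Ne.symm (dt_ne hp hv hb3.2 hx hb3.1.symm hxv hxb))

lemma next_unique {V : Finset E3} {h v b b' : E3} (h1 : R V h v b) (h2 : R V h v b') : b = b' := by
  by_contra hne
  have k1 := h1.2.2.2 b' h2.2.1 h2.2.2.1 (Ne.symm hne)
  have k2 := h2.2.2.2 b h1.2.1 h1.2.2.1 hne
  rw [dt_swap] at k1
  linarith

/-- there is a vertex on the positive side -/
lemma exists_pos {V H : Finset E3} (hb : S_BAS) (hp : Pair V H) {u : E3} (hu : u ≠ 0) :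
    ∃ x ∈ V, 0 < ⟪u, x⟫_ℝ := by
  by_contra hcon
  push Not at hcon
  have b4 := (hb V H hp).2.2.2.1
  have hc : Convex ℝ {z : E3 | ⟪u, z⟫_ℝ ≤ 0} := convex_halfSpace_le
    ⟨fun a b => inner_add_right _ _ _, fun c a => by rw [inner_smul_right]; rfl⟩ 0
  have hle := convexHull_min (fun v hv => hcon v hv) hc
  have ht : Filter.Tendsto (fun t : ℝ => t • u) (nhdsWithin 0 (Set.Ioi 0)) (nhds 0) := by
    have : Filter.Tendsto (fun t : ℝ => t • u) (nhds 0) (nhds ((0 : ℝ) • u)) :=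
      (Continuous.tendsto (by fun_prop) 0)
    rw [zero_smul] at this
    exact this.mono_left nhdsWithin_le_nhds
  have h4 := ht.eventually (mem_interior_iff_mem_nhds.1 b4)
  obtain ⟨t, ht1, ht2⟩ := (h4.and self_mem_nhdsWithin).exists
  have h5 : ⟪u, t • u⟫_ℝ ≤ 0 := hle ht1
  rw [inner_smul_right] at h5
  have h6 := self_pos hu
  have h7 : (0 : ℝ) < t := ht2
  have : 0 < t * ⟪u, u⟫_ℝ := by positivity
  linarith

/-- the edge from `v` to the next vertex is in a second facet -/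
lemma second {V H : Finset E3} (hb : S_BAS) (hp : Pair V H) {h v b : E3} (hh : h ∈ H)
    (hr : R V h v b) : ∃ k ∈ H, k ≠ h ∧ v ∈ T V k ∧ b ∈ T V k := by
  obtain ⟨r1, r2, r3, r4⟩ := hr
  have v1 := mT.1 r1
  have v2 := mT.1 r2
  have hn : cr v b ≠ 0 := cr_ne v1.2 v2.2 (Ne.symm r3)
  have hN := self_pos hn
  have hu : -cr v b ≠ 0 := neg_ne_zero.2 hn
  obtain ⟨x₀, hx₀, hx₀'⟩ := exists_pos hb hp hu
  have hS : (V.filter fun x => 0 < ⟪-cr v b, x⟫_ℝ).Nonempty :=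
    ⟨x₀, Finset.mem_filter.2 ⟨hx₀, hx₀'⟩⟩
  obtain ⟨z, hz1, hz2⟩ := Finset.exists_min_image (V.filter fun x => 0 < ⟪-cr v b, x⟫_ℝ)
    (fun x => (1 - ⟪h, x⟫_ℝ) / ⟪-cr v b, x⟫_ℝ) hS
  obtain ⟨hzV, hzp⟩ := Finset.mem_filter.1 hz1
  have hud : ∀ x, ⟪-cr v b, x⟫_ℝ = - dt v b x := fun x => by rw [inner_neg_left]; rfl
  have hnot : z ∉ T V h := by
    intro hzT
    rw [hud] at hzp
    by_cases c1 : z = v
    · rw [c1, dt_self1] at hzp
      linarith
    by_cases c2 : z = b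
    · rw [c2, dt_self2] at hzp
      linarith
    have := r4 z hzT c1 c2
    linarith
  have hz3 : ⟪h, z⟫_ℝ < 1 := lt_of_le_of_ne (hp.le z hzV h hh) fun he => hnot (mT.2 ⟨hzV, he⟩)
  set t := (1 - ⟪h, z⟫_ℝ) / ⟪-cr v b, z⟫_ℝ with ht
  have ht0 : 0 < t := div_pos (by linarith) hzp
  set y := h + t • (-cr v b) with hy
  have hyx : ∀ x, ⟪y, x⟫_ℝ = ⟪h, x⟫_ℝ + t * ⟪-cr v b, x⟫_ℝ := fun x => by
    rw [hy, inner_add_left, real_inner_smul_left]
  have hle : ∀ x ∈ V, ⟪y, x⟫_ℝ ≤ 1 := by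
    intro x hx
    rw [hyx]
    rcases le_or_gt ⟪-cr v b, x⟫_ℝ 0 with h1 | h1
    · have := hp.le x hx h hh
      nlinarith
    · have h2 := hz2 x (Finset.mem_filter.2 ⟨hx, h1⟩)
      have h3 : t * ⟪-cr v b, x⟫_ℝ ≤ 1 - ⟪h, x⟫_ℝ := (le_div_iff₀ h1).1 h2
      linarith
  have yv : ⟪y, v⟫_ℝ = 1 := by rw [hyx, hud, dt_self1, v1.2]; ring
  have yb : ⟪y, b⟫_ℝ = 1 := by rw [hyx, hud, dt_self2, v2.2]; ring
  have yz : ⟪y, z⟫_ℝ = 1 := by rw [hyx, ht, div_mul_cancel₀ _ hzp.ne']; ring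
  obtain ⟨w, hw, hw1, hwx⟩ := Finset.mem_convexHull'.1 (hp.hullH y hle)
  obtain ⟨k, hk, hwk⟩ : ∃ k ∈ H, w k ≠ 0 := by
    by_contra hcon
    push Not at hcon
    rw [Finset.sum_eq_zero hcon] at hw1
    exact zero_ne_one hw1
  have hkx : ∀ x ∈ V, ⟪y, x⟫_ℝ = 1 → ⟪k, x⟫_ℝ = 1 := by
    intro x hx hx1
    have k1 := weight_zero (V := H) (y := x) (x := y)
      (fun h' hh' => by rw [real_inner_comm]; exact hp.le x hx h' hh') hw hw1 hwx
      (by rw [real_inner_comm]; exact hx1) k hk hwk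
    rw [real_inner_comm] at k1
    exact k1
  have kv := hkx v v1.1 yv
  have kb := hkx b v2.1 yb
  have kz := hkx z hzV yz
  have p1 := par (a := v) (b := b) (u := k - y) (by rw [inner_sub_left, kv, yv, sub_self])
    (by rw [inner_sub_left, kb, yb, sub_self])
  have p2 := congrArg (fun q => ⟪q, z⟫_ℝ) p1
  simp only [real_inner_smul_left, inner_sub_left, kz, yz, sub_self, mul_zero] at p2
  have p3 : ⟪cr v b, z⟫_ℝ ≠ 0 := by
    rw [hud] at hzp
    intro h0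
    have : dt v b z = 0 := h0
    linarith
  have p4 : ⟪cr v b, k - y⟫_ℝ = 0 := by
    rcases mul_eq_zero.1 p2.symm with h1 | h1
    · exact h1
    · exact absurd h1 p3
  rw [p4, zero_smul] at p1
  have p5 : k = y := by
    rcases smul_eq_zero.1 p1 with h1 | h1
    · exact absurd h1 hN.ne'
    · exact sub_eq_zero.1 h1
  refine ⟨k, hk, ?_, mT.2 ⟨v1.1, kv⟩, mT.2 ⟨v2.1, kb⟩⟩
  intro hkh
  rw [hkh] at p5
  have h8 : t • (-cr v b) = 0 := by
    have : h + t • (-cr v b) = h := p5.symm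
    exact left_eq_add.1 this.symm
  rcases smul_eq_zero.1 h8 with h9 | h9
  · exact ht0.ne' h9
  · exact hu h9

end Pool.Agent.L7h25.SY
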