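import Pool.Agent.L7h25.SY.Cr

set_option autoImplicit false

/-! Project SY, part EUL, second half: twice the number of edges is the number of incidences. -/

namespace Pool.Agent.L7h25.SY

open Pool.Agent.L7h98.SY
open scoped InnerProductSpace
open Module Classical

/-- the edge relation: two different facets contain `a` and `b` -/
def Ed (V H : Finset E3) (a b : E3) : Prop :=
  a ≠ b ∧ ∃ h ∈ H, ∃ k ∈ H, h ≠ k ∧ a ∈ T V h ∧ b ∈ T V h ∧ a ∈ T V k ∧ b ∈ T V k

/-- the oriented edges -/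
noncomputable def OE (V H : Finset E3) : Finset (E3 × E3) := (V ×ˢ V).filter fun p => Ed V H p.1 p.2

lemma mem_OE {V H : Finset E3} {a b : E3} : (a, b) ∈ OE V H ↔ Ed V H a b := by
  unfold OE
  rw [Finset.mem_filter, Finset.mem_product]
  constructor
  · exact fun h => h.2
  · rintro ⟨h1, h, hh, k, hk, h2, h3, h4, h5⟩
    exact ⟨⟨(mT.1 h3).1, (mT.1 h4).1⟩, h1, h, hh, k, hk, h2, h3, h4, h5⟩

lemma Ed.symm {V H : Finset E3} {a b : E3} (h : Ed V H a b) : Ed V H b a := by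
  obtain ⟨h1, h, hh, k, hk, h2, h3, h4, h5, h6⟩ := h
  exact ⟨h1.symm, h, hh, k, hk, h2, h4, h3, h6, h5⟩

/-- the sign relation between two facets with two common vertices -/
lemma sgn {V H : Finset E3} (hp : Pair V H) {h k a b : E3} (hh : h ∈ H) (hk : k ∈ H)
    (hhk : h ≠ k) (hab : a ≠ b) (ha : a ∈ T V h) (hb : b ∈ T V h) (ha' : a ∈ T V k)
    (hb' : b ∈ T V k) : ∃ c : ℝ, c ≠ 0 ∧
      (∀ x ∈ T V h, x ≠ a → x ≠ b → 0 < c * dt a b x) ∧
      (∀ x ∈ T V k, x ≠ a → x ≠ b → c * dt a b x < 0) := by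
  have a1 := mT.1 ha
  have b1 := mT.1 hb
  have a2 := mT.1 ha'
  have b2 := mT.1 hb'
  have hn : cr a b ≠ 0 := cr_ne a1.2 b1.2 hab
  have hN := self_pos hn
  have p1 := par (a := a) (b := b) (u := h - k) (by rw [inner_sub_left, a1.2, a2.2, sub_self])
    (by rw [inner_sub_left, b1.2, b2.2, sub_self])
  have key : ∀ x, ⟪cr a b, h - k⟫_ℝ * dt a b x = ⟪cr a b, cr a b⟫_ℝ * (⟪h, x⟫_ℝ - ⟪k, x⟫_ℝ) := by
    intro x
    have p2 := congrArg (fun q => ⟪q, x⟫_ℝ) p1
    simp only [real_inner_smul_left, inner_sub_left] at p2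
    exact p2.symm
  refine ⟨⟪cr a b, h - k⟫_ℝ, ?_, ?_, ?_⟩
  · intro h0
    rw [h0, zero_smul] at p1
    rcases smul_eq_zero.1 p1 with h1 | h1
    · exact hN.ne' h1
    · exact hhk (sub_eq_zero.1 h1)
  · intro x hx hxa hxb
    have x1 := mT.1 hx
    have x2 : x ∉ T V k := by
      intro hc
      rcases col hp hhk hab ha ha' hb hb' hx hc with h1 | h1
      · exact hxa h1
      · exact hxb h1
    have x3 : ⟪k, x⟫_ℝ < 1 := lt_of_le_of_ne (hp.le x x1.1 k hk) fun he => x2 (mT.2 ⟨x1.1, he⟩)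
    rw [key, x1.2]
    exact mul_pos hN (by linarith)
  · intro x hx hxa hxb
    have x1 := mT.1 hx
    have x2 : x ∉ T V h := by
      intro hc
      rcases col hp hhk hab ha ha' hb hb' hc hx with h1 | h1
      · exact hxa h1
      · exact hxb h1
    have x3 : ⟪h, x⟫_ℝ < 1 := lt_of_le_of_ne (hp.le x x1.1 h hh) fun he => x2 (mT.2 ⟨x1.1, he⟩)
    rw [key, x1.2]
    exact mul_neg_of_pos_of_neg hN (by linarith)

lemma third {V H : Finset E3} (hb : S_BAS) (hp : Pair V H) {h a b : E3} (hh : h ∈ H) :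
    ∃ x ∈ T V h, x ≠ a ∧ x ≠ b := by
  have h3 := (hb V H hp).2.1 h hh
  by_contra hcon
  push Not at hcon
  have h4 : T V h ⊆ {a, b} := by
    intro x hx
    by_cases h1 : x = a
    · rw [h1]; simp
    · rw [hcon x hx h1]; simp
  have h5 := (Finset.card_le_card h4).trans Finset.card_le_two
  omega

/-- every oriented edge is next on exactly one facet -/
lemma facet_exists {V H : Finset E3} (hp : Pair V H) {a b : E3} (he : Ed V H a b) :
    ∃ h ∈ H, R V h a b := by
  obtain ⟨hab, h, hh, k, hk, hhk, ha, hb, ha', hb'⟩ := he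
  obtain ⟨c, hc, h1, h2⟩ := sgn hp hh hk hhk hab ha hb ha' hb'
  rcases lt_or_gt_of_ne hc with hc' | hc'
  · refine ⟨k, hk, ha', hb', hab.symm, fun x hx hxa hxb => ?_⟩
    have := h2 x hx hxa hxb
    by_contra hcon
    have := mul_nonneg_of_nonpos_of_nonpos hc'.le (not_lt.1 hcon)
    linarith
  · refine ⟨h, hh, ha, hb, hab.symm, fun x hx hxa hxb => ?_⟩
    exact pos_of_mul_pos_of_pos_left' (h1 x hx hxa hxb) hc'
where
  pos_of_mul_pos_of_pos_left' {c d : ℝ} (h : 0 < c * d) (hc : 0 < c) : 0 < d :=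
    (mul_pos_iff_of_pos_left hc).1 h

lemma facet_unique {V H : Finset E3} (hb : S_BAS) (hp : Pair V H) {h k a b : E3} (hh : h ∈ H)
    (hk : k ∈ H) (h1 : R V h a b) (h2 : R V k a b) : h = k := by
  by_contra hhk
  obtain ⟨c, hc, s1, s2⟩ := sgn hp hh hk hhk (Ne.symm h1.2.2.1) h1.1 h1.2.1 h2.1 h2.2.1
  obtain ⟨x, hx, hxa, hxb⟩ := third (a := a) (b := b) hb hp hh
  obtain ⟨y, hy, hya, hyb⟩ := third (a := a) (b := b) hb hp hk
  have k1 := s1 x hx hxa hxb
  have k2 := h1.2.2.2 x hx hxa hxb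
  have k3 := s2 y hy hya hyb
  have k4 := h2.2.2.2 y hy hya hyb
  have k5 : 0 < c := by
    by_contra hcon
    have := mul_nonpos_of_nonpos_of_nonneg (not_lt.1 hcon) k2.le
    linarith
  have := mul_pos k5 k4
  linarith

/-- the number of oriented edges is the number of incidences -/
lemma card_OE {V H : Finset E3} (hb : S_BAS) (hp : Pair V H) :
    (OE V H).card = ∑ h ∈ H, (T V h).card := by
  have h1 : (H.sigma fun h => T V h).card = ∑ h ∈ H, (T V h).card := Finset.card_sigma _ _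
  rw [← h1]
  have hn : ∀ p ∈ (H.sigma fun h => T V h), ∃ b, R V p.1 p.2 b := by
    rintro ⟨h, v⟩ hpv
    rw [Finset.mem_sigma] at hpv
    exact next hb hp hpv.1 hpv.2
  choose! f hf using hn
  symm
  refine Finset.card_bij (fun p _ => (p.2, f p)) ?_ ?_ ?_
  · rintro ⟨h, v⟩ hpv
    have h2 := hf ⟨h, v⟩ hpv
    rw [Finset.mem_sigma] at hpv
    obtain ⟨k, hk, hkh, hv', hb'⟩ := second hb hp hpv.1 h2
    exact mem_OE.2 ⟨Ne.symm h2.2.2.1, h, hpv.1, k, hk, hkh.symm, h2.1, h2.2.1, hv', hb'⟩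
  · rintro ⟨h, v⟩ hpv ⟨h', v'⟩ hpv' heq
    have e1 : v = v' := congrArg Prod.fst heq
    have e2 : f ⟨h, v⟩ = f ⟨h', v'⟩ := congrArg Prod.snd heq
    have r1 := hf ⟨h, v⟩ hpv
    have r2 := hf ⟨h', v'⟩ hpv'
    subst e1
    rw [← e2] at r2
    rw [Finset.mem_sigma] at hpv hpv'
    have := facet_unique hb hp hpv.1 hpv'.1 r1 r2
    subst this
    rfl
  · rintro ⟨a, b⟩ hab
    obtain ⟨h, hh, hr⟩ := facet_exists hp (mem_OE.1 hab)
    have hm : (⟨h, a⟩ : Sigma fun _ : E3 => E3) ∈ (H.sigma fun h => T V h) :=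
      Finset.mem_sigma.2 ⟨hh, hr.1⟩
    refine ⟨⟨h, a⟩, hm, ?_⟩
    have := next_unique (hf ⟨h, a⟩ hm) hr
    exact Prod.ext rfl this

/-- the face of an oriented edge -/
noncomputable def ef (p : E3 × E3) : Set E3 := convexHull ℝ {p.1, p.2}

lemma Fc_eq {V : Finset E3} {y : E3} (hy : ∀ v ∈ V, ⟪y, v⟫_ℝ ≤ 1) :
    Fc V y = convexHull ℝ (T V y : Set E3) := by
  apply Set.Subset.antisymm
  · rintro x ⟨h1, h2⟩
    exact face_aux hy h1 h2
  · intro x hx
    have hc : Convex ℝ {z : E3 | ⟪y, z⟫_ℝ = 1} := convex_hyperplane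
      ⟨fun a b => inner_add_right _ _ _, fun c a => by rw [inner_smul_right]; rfl⟩ 1
    refine ⟨convexHull_mono (fun v hv => (mT.1 hv).1) hx, ?_⟩
    exact convexHull_min (fun v hv => (mT.1 hv).2) hc hx

lemma vs_hull (s : Set E3) : vectorSpan ℝ (convexHull ℝ s) = vectorSpan ℝ s := by
  rw [← direction_affineSpan, ← direction_affineSpan, affineSpan_convexHull]

lemma finrank_pair {a b : E3} (hab : a ≠ b) :
    finrank ℝ (vectorSpan ℝ ({a, b} : Set E3)) = 1 := by
  have h1 := (affineIndependent_of_ne ℝ hab).finrank_vectorSpan (n := 1) (by simp)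
  have h2 : Set.range ![a, b] = ({a, b} : Set E3) := by
    ext x
    simp only [Matrix.range_cons, Matrix.range_empty, Set.union_empty, Set.mem_union,
      Set.mem_singleton_iff, Set.mem_insert_iff]
  rwa [h2] at h1

/-- an exposed face which does not span is a face of a functional with maximum one -/
lemma exposed_form {V H : Finset E3} (hb : S_BAS) (hp : Pair V H) {F : Set E3}
    (h1 : IsExposed ℝ (convexHull ℝ (V : Set E3)) F) (h2 : F.Nonempty)
    (h3 : finrank ℝ (vectorSpan ℝ F) ≠ 3) :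
    ∃ y : E3, (∀ v ∈ V, ⟪y, v⟫_ℝ ≤ 1) ∧ F = Fc V y := by
  have b4 := (hb V H hp).2.2.2.1
  obtain ⟨l, hl⟩ := h1 h2
  obtain ⟨x₀, hx₀⟩ := h2
  set y : E3 := (InnerProductSpace.toDual ℝ E3).symm l with hy
  have hly : ∀ z, l z = ⟪y, z⟫_ℝ := fun z => by
    rw [hy, InnerProductSpace.toDual_symm_apply]
  have hF : ∀ x, x ∈ F ↔ x ∈ convexHull ℝ (V : Set E3) ∧
      ∀ z ∈ convexHull ℝ (V : Set E3), ⟪y, z⟫_ℝ ≤ ⟪y, x⟫_ℝ := by
    intro x
    rw [hl]
    simp only [Set.mem_ofPred_eq, hly]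
  have hy0 : y ≠ 0 := by
    intro h
    have h4 : F = convexHull ℝ (V : Set E3) := by
      ext x
      rw [hF]
      constructor
      · exact fun h => h.1
      · exact fun hx => ⟨hx, fun z _ => by rw [h]; simp⟩
    have h5 : (interior (convexHull ℝ (V : Set E3))).Nonempty := ⟨0, b4⟩
    have h6 : vectorSpan ℝ (convexHull ℝ (V : Set E3)) = ⊤ := by
      have h7 : affineSpan ℝ (convexHull ℝ (V : Set E3)) = ⊤ := by
        rw [affineSpan_convexHull]
        exact affineSpan_eq_top_of_nonempty_interior h5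
      rw [← direction_affineSpan, h7, AffineSubspace.direction_top]
    rw [h4, h6, finrank_top, finrank_E3] at h3
    exact h3 rfl
  set m := ⟪y, x₀⟫_ℝ with hm
  have hmax : ∀ z ∈ convexHull ℝ (V : Set E3), ⟪y, z⟫_ℝ ≤ m := ((hF x₀).1 hx₀).2
  have hm0 : 0 < m := by
    obtain ⟨x, hx, hx'⟩ := exists_pos hb hp hy0
    exact hx'.trans_le (hmax x (subset_convexHull ℝ _ hx))
  have hin : ∀ z, ⟪m⁻¹ • y, z⟫_ℝ = m⁻¹ * ⟪y, z⟫_ℝ := fun z => real_inner_smul_left _ _ _
  refine ⟨m⁻¹ • y, fun v hv => ?_, ?_⟩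
  · rw [hin, inv_mul_le_iff₀ hm0, mul_one]
    exact hmax v (subset_convexHull ℝ _ hv)
  · ext x
    rw [hF]
    constructor
    · rintro ⟨k1, k2⟩
      refine ⟨k1, ?_⟩
      have k3 := k2 x₀ ((hF x₀).1 hx₀).1
      have k4 := hmax x k1
      have k5 : ⟪y, x⟫_ℝ = m := le_antisymm k4 k3
      rw [hin, k5, inv_mul_cancel₀ hm0.ne']
    · rintro ⟨k1, k2⟩
      refine ⟨k1, fun z hz => ?_⟩
      rw [hin, inv_mul_eq_one₀ hm0.ne'] at k2
      rw [← k2]
      exact hmax z hz

lemma faces_one {V H : Finset E3} (hb : S_BAS) (hp : Pair V H) :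
    {F : Set E3 | IsExposed ℝ (convexHull ℝ (V : Set E3)) F ∧ F.Nonempty ∧
      finrank ℝ (vectorSpan ℝ F) = 1} = ((OE V H).image ef : Finset (Set E3)) := by
  have hle : ∀ h ∈ H, ∀ v ∈ V, ⟪h, v⟫_ℝ ≤ 1 := fun h hh v hv => hp.le v hv h hh
  ext F
  rw [Finset.mem_coe, Finset.mem_image]
  constructor
  · rintro ⟨h1, h2, h3⟩
    obtain ⟨y, hy, rfl⟩ := exposed_form hb hp h1 h2 (by rw [h3]; norm_num)
    obtain ⟨w, hw, hw1, hwx⟩ := Finset.mem_convexHull'.1 (hp.hullH y hy)
    have hker : ∀ h ∈ H, w h ≠ 0 → ∀ v ∈ T V y, v ∈ T V h := by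
      intro h hh hwh v hv
      have hv' := mT.1 hv
      have k1 := weight_zero (V := H) (y := v) (x := y)
        (fun h' hh' => by rw [real_inner_comm]; exact hle h' hh' v hv'.1) hw hw1 hwx
        (by rw [real_inner_comm]; exact hv'.2) h hh hwh
      rw [real_inner_comm] at k1
      exact mT.2 ⟨hv'.1, k1⟩
    obtain ⟨h, hh, hwh⟩ : ∃ h ∈ H, w h ≠ 0 := by
      by_contra hcon
      push Not at hcon
      rw [Finset.sum_eq_zero hcon] at hw1
      exact zero_ne_one hw1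
    obtain ⟨k, hk, hkh, hwk⟩ : ∃ k ∈ H, k ≠ h ∧ w k ≠ 0 := by
      by_contra hcon
      push Not at hcon
      have e1 : w h = 1 := by
        rw [← hw1]
        exact (Finset.sum_eq_single_of_mem h hh fun k hk hkh => hcon k hk hkh).symm
      have e2 : y = h := by
        rw [← hwx, Finset.sum_eq_single_of_mem h hh fun k hk hkh => by
          rw [hcon k hk hkh, zero_smul], e1, one_smul]
      have e3 : Fc V h ∈ (fun h : E3 => Fc V h) '' (H : Set E3) := ⟨h, hh, rfl⟩
      rw [← faces_two hb hp] at e3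
      rw [e2, e3.2.2] at h3
      norm_num at h3
    have hTne : (T V y).Nonempty := by
      obtain ⟨x, hx⟩ := h2
      rw [Fc_eq hy] at hx
      by_contra hcon
      rw [Finset.not_nonempty_iff_eq_empty] at hcon
      rw [hcon, Finset.coe_empty, convexHull_empty] at hx
      exact hx
    obtain ⟨a, ha⟩ := hTne
    obtain ⟨b, hb', hba⟩ : ∃ b ∈ T V y, b ≠ a := by
      by_contra hcon
      push Not at hcon
      have e1 : T V y = {a} := Finset.eq_singleton_iff_unique_mem.2 ⟨ha, hcon⟩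
      rw [Fc_eq hy, e1, Finset.coe_singleton, convexHull_singleton, vectorSpan_singleton,
        finrank_bot] at h3
      norm_num at h3
    have hE : Ed V H a b := ⟨hba.symm, h, hh, k, hk, hkh.symm, hker h hh hwh a ha,
      hker h hh hwh b hb', hker k hk hwk a ha, hker k hk hwk b hb'⟩
    refine ⟨(a, b), mem_OE.2 hE, ?_⟩
    have e1 : (T V y : Set E3) = {a, b} := by
      ext x
      constructor
      · intro hx
        exact col hp hkh.symm hba.symm (hker h hh hwh a ha) (hker k hk hwk a ha)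
          (hker h hh hwh b hb') (hker k hk hwk b hb') (hker h hh hwh x hx) (hker k hk hwk x hx)
      · rintro (rfl | rfl)
        · exact ha
        · exact hb'
    show convexHull ℝ {a, b} = Fc V y
    rw [Fc_eq hy, e1]
  · rintro ⟨⟨a, b⟩, hab, rfl⟩
    obtain ⟨hne, h, hh, k, hk, hhk, ha, hb', ha', hb''⟩ := mem_OE.1 hab
    set y : E3 := (1 / 2 : ℝ) • (h + k) with hy
    have hin : ∀ x, ⟪y, x⟫_ℝ = (⟪h, x⟫_ℝ + ⟪k, x⟫_ℝ) / 2 := fun x => by
      rw [hy, real_inner_smul_left, inner_add_left]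
      ring
    have hle' : ∀ v ∈ V, ⟪y, v⟫_ℝ ≤ 1 := by
      intro v hv
      rw [hin]
      linarith [hle h hh v hv, hle k hk v hv]
    have e1 : (T V y : Set E3) = {a, b} := by
      ext x
      constructor
      · intro hx
        have hx' := mT.1 hx
        rw [hin] at hx'
        have k1 := hle h hh x hx'.1
        have k2 := hle k hk x hx'.1
        exact col hp hhk hne ha ha' hb' hb'' (mT.2 ⟨hx'.1, by linarith [hx'.2]⟩)
          (mT.2 ⟨hx'.1, by linarith [hx'.2]⟩)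
      · rintro (rfl | rfl)
        · exact mT.2 ⟨(mT.1 ha).1, by rw [hin, (mT.1 ha).2, (mT.1 ha').2]; norm_num⟩
        · exact mT.2 ⟨(mT.1 hb').1, by rw [hin, (mT.1 hb').2, (mT.1 hb'').2]; norm_num⟩
    have e2 : ef (a, b) = Fc V y := by
      show convexHull ℝ {a, b} = Fc V y
      rw [Fc_eq hle', e1]
    refine ⟨?_, ?_, ?_⟩
    · rw [e2]
      refine Fc_exposed hle' ⟨a, ?_⟩
      have : a ∈ (T V y : Set E3) := by rw [e1]; simp
      exact this
    · exact ⟨a, subset_convexHull ℝ _ (by simp)⟩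
    · show finrank ℝ (vectorSpan ℝ (convexHull ℝ {a, b})) = 1
      rw [vs_hull, finrank_pair hne]

/-- a vertex in the hull of two vertices is one of them -/
lemma vertex_mem {V H : Finset E3} (hp : Pair V H) {a c d : E3} (ha : a ∈ V) (hc : c ∈ V)
    (hd : d ∈ V) (h : a ∈ convexHull ℝ ({c, d} : Set E3)) : a = c ∨ a = d := by
  by_contra hcon
  push Not at hcon
  obtain ⟨y, h1, h2⟩ := hp.expV a ha
  have k1 := h2 c hc hcon.1.symm
  have k2 := h2 d hd hcon.2.symm
  have hcv : Convex ℝ {z : E3 | ⟪y, z⟫_ℝ < 1} := convex_halfSpace_lt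
    ⟨fun a b => inner_add_right _ _ _, fun c a => by rw [inner_smul_right]; rfl⟩ 1
  have k3 : a ∈ {z : E3 | ⟪y, z⟫_ℝ < 1} := convexHull_min (by
    rintro x (rfl | rfl)
    · exact k1
    · exact k2) hcv h
  exact k3.ne h1

lemma fibre {V H : Finset E3} (hp : Pair V H) {a b : E3} (hab : (a, b) ∈ OE V H) :
    (OE V H).filter (fun p => ef p = ef (a, b)) = {(a, b), (b, a)} := by
  have hE := mem_OE.1 hab
  have hV : a ∈ V ∧ b ∈ V := by
    obtain ⟨-, h, hh, k, hk, hhk, ha, hb', ha', hb''⟩ := hE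
    exact ⟨(mT.1 ha).1, (mT.1 hb').1⟩
  ext ⟨c, d⟩
  rw [Finset.mem_filter, Finset.mem_insert, Finset.mem_singleton]
  constructor
  · rintro ⟨h1, h2⟩
    have hE' := mem_OE.1 h1
    have hV' : c ∈ V ∧ d ∈ V := by
      obtain ⟨-, h, hh, k, hk, hhk, ha, hb', ha', hb''⟩ := hE'
      exact ⟨(mT.1 ha).1, (mT.1 hb').1⟩
    have h2' : convexHull ℝ ({c, d} : Set E3) = convexHull ℝ ({a, b} : Set E3) := h2
    have c1 : c = a ∨ c = b := vertex_mem hp hV'.1 hV.1 hV.2 (by
      rw [← h2']; exact subset_convexHull ℝ _ (by simp))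
    have d1 : d = a ∨ d = b := vertex_mem hp hV'.2 hV.1 hV.2 (by
      rw [← h2']; exact subset_convexHull ℝ _ (by simp))
    have hcd := hE'.1
    rcases c1 with rfl | rfl <;> rcases d1 with rfl | rfl
    · exact absurd rfl hcd
    · exact Or.inl rfl
    · exact Or.inr rfl
    · exact absurd rfl hcd
  · rintro (h | h)
    · rw [h]
      exact ⟨hab, rfl⟩
    · rw [h]
      refine ⟨mem_OE.2 hE.symm, ?_⟩
      show convexHull ℝ ({b, a} : Set E3) = convexHull ℝ ({a, b} : Set E3)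
      rw [Set.pair_comm]

/-- twice the number of edges is the number of incidences -/
theorem edges {V H : Finset E3} (hb : S_BAS) (hp : Pair V H) :
    2 * faceCount 1 (convexHull ℝ (V : Set E3)) = ∑ h ∈ H, (T V h).card := by
  rw [← card_OE hb hp]
  have h1 : faceCount 1 (convexHull ℝ (V : Set E3)) = ((OE V H).image ef).card := by
    show Set.ncard _ = _
    rw [faces_one hb hp, Set.ncard_coe_finset]
  rw [h1, Finset.card_eq_sum_card_image ef (OE V H)]
  have h2 : ∀ F ∈ (OE V H).image ef, ((OE V H).filter fun p => ef p = F).card = 2 := by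
    intro F hF
    obtain ⟨⟨a, b⟩, hab, rfl⟩ := Finset.mem_image.1 hF
    rw [fibre hp hab, Finset.card_pair]
    intro h
    exact (mem_OE.1 hab).1 (congrArg Prod.fst h)
  rw [Finset.sum_congr rfl h2, Finset.sum_const, smul_eq_mul, mul_comm]

end Pool.Agent.L7h25.SY
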