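import Pool.Agent.L7h98.SY.Stm

set_option autoImplicit false

/-! Project SY, part PF: faces of dimension 0 and 2. -/

namespace Pool.Agent.L7h25.SY

open Pool.Agent.L7h98.SY
open scoped InnerProductSpace
open Module Classical

/-- the weights of a convex combination on which a functional attains its bound -/
lemma weight_zero {V : Finset E3} {y x : E3} (hy : ∀ v ∈ V, ⟪y, v⟫_ℝ ≤ 1) {w : E3 → ℝ}
    (hw : ∀ v ∈ V, 0 ≤ w v) (hw1 : ∑ v ∈ V, w v = 1) (hwx : ∑ v ∈ V, w v • v = x)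
    (hx1 : ⟪y, x⟫_ℝ = 1) : ∀ v ∈ V, w v ≠ 0 → ⟪y, v⟫_ℝ = 1 := by
  have h1 : ∑ v ∈ V, w v * (1 - ⟪y, v⟫_ℝ) = 0 := by
    have h2 : ⟪y, x⟫_ℝ = ∑ v ∈ V, w v * ⟪y, v⟫_ℝ := by
      rw [← hwx, inner_sum]
      exact Finset.sum_congr rfl fun v _ => by rw [inner_smul_right]
    have h3 : ∑ v ∈ V, w v * (1 - ⟪y, v⟫_ℝ) = ∑ v ∈ V, w v - ∑ v ∈ V, w v * ⟪y, v⟫_ℝ := by
      rw [← Finset.sum_sub_distrib]
      exact Finset.sum_congr rfl fun v _ => by ring
    rw [h3, hw1, ← h2, hx1, sub_self]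
  have h2 := (Finset.sum_eq_zero_iff_of_nonneg fun v hv =>
    mul_nonneg (hw v hv) (sub_nonneg.2 (hy v hv))).1 h1
  intro v hv hne
  rcases mul_eq_zero.1 (h2 v hv) with h | h
  · exact absurd h hne
  · linarith

lemma face_aux {V : Finset E3} {y x : E3} (hy : ∀ v ∈ V, ⟪y, v⟫_ℝ ≤ 1)
    (hx : x ∈ convexHull ℝ (V : Set E3)) (hx1 : ⟪y, x⟫_ℝ = 1) :
    x ∈ convexHull ℝ (T V y : Set E3) := by
  obtain ⟨w, hw, hw1, hwx⟩ := Finset.mem_convexHull'.1 hx
  have key := weight_zero hy hw hw1 hwx hx1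
  refine Finset.mem_convexHull'.2 ⟨w, fun v hv => hw v (Finset.mem_filter.1 hv).1, ?_, ?_⟩
  · rw [← hw1]
    exact Finset.sum_filter_of_ne fun v hv hne => key v hv hne
  · rw [← hwx]
    exact Finset.sum_filter_of_ne fun v hv hne => key v hv fun h => hne (by rw [h, zero_smul])

lemma le_one {V : Finset E3} {y : E3} (hy : ∀ v ∈ V, ⟪y, v⟫_ℝ ≤ 1) {x : E3}
    (hx : x ∈ convexHull ℝ (V : Set E3)) : ⟪y, x⟫_ℝ ≤ 1 := by
  have hc : Convex ℝ {z : E3 | ⟪y, z⟫_ℝ ≤ 1} := convex_halfSpace_le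
    ⟨fun a b => inner_add_right _ _ _, fun c a => by rw [inner_smul_right]; rfl⟩ 1
  exact convexHull_min (fun v hv => hy v hv) hc hx

/-- the face of the functional `y` -/
def Fc (V : Finset E3) (y : E3) : Set E3 := {x ∈ convexHull ℝ (V : Set E3) | ⟪y, x⟫_ℝ = 1}

lemma Fc_exposed {V : Finset E3} {y : E3} (hy : ∀ v ∈ V, ⟪y, v⟫_ℝ ≤ 1) (hne : (T V y).Nonempty) :
    IsExposed ℝ (convexHull ℝ (V : Set E3)) (Fc V y) := by
  intro _
  refine ⟨innerSL ℝ y, ?_⟩
  ext x
  constructor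
  · rintro ⟨hx, h1⟩
    refine ⟨hx, fun z hz => ?_⟩
    simp only [innerSL_apply_apply]
    rw [h1]
    exact le_one hy hz
  · rintro ⟨hx, h1⟩
    refine ⟨hx, le_antisymm (le_one hy hx) ?_⟩
    obtain ⟨v, hv⟩ := hne
    have h2 := h1 v (subset_convexHull ℝ _ (Finset.mem_filter.1 hv).1)
    simp only [innerSL_apply_apply] at h2
    rw [(Finset.mem_filter.1 hv).2] at h2
    exact h2

lemma faces_zero {V H : Finset E3} (hp : Pair V H) :
    {F : Set E3 | IsExposed ℝ (convexHull ℝ (V : Set E3)) F ∧ F.Nonempty ∧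
      finrank ℝ (vectorSpan ℝ F) = 0} = (fun v : E3 => ({v} : Set E3)) '' (V : Set E3) := by
  ext F
  constructor
  · rintro ⟨h1, ⟨x, hx⟩, h3⟩
    have h4 : vectorSpan ℝ F = ⊥ := Submodule.finrank_eq_zero.1 h3
    have h5 : F = {x} := by
      ext z
      constructor
      · intro hz
        have h6 : z -ᵥ x ∈ vectorSpan ℝ F := vsub_mem_vectorSpan ℝ hz hx
        rw [h4, Submodule.mem_bot, vsub_eq_sub, sub_eq_zero] at h6
        exact h6
      · rintro rfl
        exact hx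
    subst h5
    refine ⟨x, ?_, rfl⟩
    have h6 : x ∈ Set.extremePoints ℝ (convexHull ℝ (V : Set E3)) :=
      isExtreme_singleton.1 h1.isExtreme
    exact extremePoints_convexHull_subset h6
  · rintro ⟨v, hv, rfl⟩
    obtain ⟨y, hy1, hy2⟩ := hp.expV v hv
    have hy : ∀ v' ∈ V, ⟪y, v'⟫_ℝ ≤ 1 := by
      intro v' hv'
      by_cases h : v' = v
      · rw [h, hy1]
      · exact (hy2 v' hv' h).le
    have hT : T V y = {v} := by
      ext v'
      simp only [T, Finset.mem_filter, Finset.mem_singleton]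
      constructor
      · rintro ⟨h1, h2⟩
        by_contra h
        exact (hy2 v' h1 h).ne h2
      · rintro rfl
        exact ⟨hv, hy1⟩
    have hF : Fc V y = {v} := by
      ext x
      constructor
      · rintro ⟨h1, h2⟩
        have h3 := face_aux hy h1 h2
        rw [hT, Finset.coe_singleton, convexHull_singleton] at h3
        exact h3
      · rintro rfl
        exact ⟨subset_convexHull ℝ _ hv, hy1⟩
    refine ⟨?_, Set.singleton_nonempty v, ?_⟩
    · show IsExposed ℝ (convexHull ℝ (V : Set E3)) {v}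
      rw [← hF]
      exact Fc_exposed hy (by rw [hT]; exact Finset.singleton_nonempty v)
    · show finrank ℝ (vectorSpan ℝ ({v} : Set E3)) = 0
      rw [vectorSpan_singleton, finrank_bot]

lemma finrank_E3 : finrank ℝ E3 = 3 := by simp

lemma finrank_orth {y : E3} (hy : y ≠ 0) : finrank ℝ (ℝ ∙ y)ᗮ = 2 := by
  have : Fact (finrank ℝ E3 = 2 + 1) := ⟨finrank_E3⟩
  exact Submodule.finrank_orthogonal_span_singleton hy

lemma vspan_le {F : Set E3} {y : E3} {c : ℝ} (h : ∀ x ∈ F, ⟪y, x⟫_ℝ = c) :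
    vectorSpan ℝ F ≤ (ℝ ∙ y)ᗮ := by
  rw [vectorSpan_def, Submodule.span_le]
  rintro _ ⟨a, ha, b, hb, rfl⟩
  rw [SetLike.mem_coe, Submodule.mem_orthogonal_singleton_iff_inner_right]
  show ⟪y, a -ᵥ b⟫_ℝ = 0
  rw [vsub_eq_sub, inner_sub_right, h a ha, h b hb, sub_self]

lemma faces_two (hb : S_BAS) {V H : Finset E3} (hp : Pair V H) :
    {F : Set E3 | IsExposed ℝ (convexHull ℝ (V : Set E3)) F ∧ F.Nonempty ∧
      finrank ℝ (vectorSpan ℝ F) = 2} = (fun h : E3 => Fc V h) '' (H : Set E3) := by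
  obtain ⟨b1, b2, b3, b4, b5, b6⟩ := hb V H hp
  have hle : ∀ h ∈ H, ∀ v ∈ V, ⟪h, v⟫_ℝ ≤ 1 := fun h hh v hv => hp.le v hv h hh
  ext F
  constructor
  · rintro ⟨h1, h2, h3⟩
    obtain ⟨l, hl⟩ := h1 h2
    obtain ⟨x₀, hx₀⟩ := h2
    set y : E3 := (InnerProductSpace.toDual ℝ E3).symm l with hy
    have hly : ∀ z, l z = ⟪y, z⟫_ℝ := fun z => by
      rw [hy, InnerProductSpace.toDual_symm_apply]
    have hF : ∀ x, x ∈ F ↔ x ∈ convexHull ℝ (V : Set E3) ∧
        ∀ z ∈ convexHull ℝ (V : Set E3), ⟪y, z⟫_ℝ ≤ ⟪y, x⟫_ℝ := by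
      intro x
      rw [hl]
      simp only [Set.mem_ofPred_eq, hly]
    have hy0 : y ≠ 0 := by
      intro h
      have h4 : F = convexHull ℝ (V : Set E3) := by
        ext x
        rw [hF]
        constructor
        · exact fun h => h.1
        · exact fun hx => ⟨hx, fun z _ => by rw [h]; simp⟩
      have h5 : (interior (convexHull ℝ (V : Set E3))).Nonempty := ⟨0, b4⟩
      have h6 : vectorSpan ℝ (convexHull ℝ (V : Set E3)) = ⊤ := by
        have h7 : affineSpan ℝ (convexHull ℝ (V : Set E3)) = ⊤ := by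
          rw [affineSpan_convexHull]
          exact affineSpan_eq_top_of_nonempty_interior h5
        rw [← direction_affineSpan, h7, AffineSubspace.direction_top]
      rw [h4, h6, finrank_top, finrank_E3] at h3
      omega
    set m := ⟪y, x₀⟫_ℝ with hm
    have hmax : ∀ z ∈ convexHull ℝ (V : Set E3), ⟪y, z⟫_ℝ ≤ m := ((hF x₀).1 hx₀).2
    have hm0 : 0 < m := by
      have hc : Filter.Tendsto (fun t : ℝ => t • y) (nhdsWithin 0 (Set.Ioi 0)) (nhds 0) := by
        have : Filter.Tendsto (fun t : ℝ => t • y) (nhds 0) (nhds ((0 : ℝ) • y)) :=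
          (Continuous.tendsto (by fun_prop) 0)
        rw [zero_smul] at this
        exact this.mono_left nhdsWithin_le_nhds
      have h4 := hc.eventually (mem_interior_iff_mem_nhds.1 b4)
      obtain ⟨t, ht1, ht2⟩ := (h4.and self_mem_nhdsWithin).exists
      have h5 := hmax _ ht1
      rw [inner_smul_right, real_inner_self_eq_norm_sq] at h5
      have h6 : 0 < ‖y‖ := norm_pos_iff.2 hy0
      have h7 : (0 : ℝ) < t := ht2
      have : 0 < t * ‖y‖ ^ 2 := by positivity
      linarith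
    set y' : E3 := m⁻¹ • y with hy'
    have hin : ∀ z, ⟪y', z⟫_ℝ = m⁻¹ * ⟪y, z⟫_ℝ := fun z => by
      rw [hy', real_inner_smul_left]
    have hle' : ∀ z ∈ convexHull ℝ (V : Set E3), ⟪y', z⟫_ℝ ≤ 1 := by
      intro z hz
      rw [hin, inv_mul_le_iff₀ hm0, mul_one]
      exact hmax z hz
    have hleV : ∀ v ∈ V, ⟪y', v⟫_ℝ ≤ 1 := fun v hv => hle' v (subset_convexHull ℝ _ hv)
    have hFc : F = Fc V y' := by
      ext x
      rw [hF]
      constructor
      · rintro ⟨k1, k2⟩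
        refine ⟨k1, ?_⟩
        have k3 := k2 x₀ ((hF x₀).1 hx₀).1
        have k4 := hmax x k1
        have k5 : ⟪y, x⟫_ℝ = m := le_antisymm k4 k3
        rw [hin, k5, inv_mul_cancel₀ hm0.ne']
      · rintro ⟨k1, k2⟩
        refine ⟨k1, fun z hz => ?_⟩
        rw [hin, inv_mul_eq_one₀ hm0.ne'] at k2
        rw [← k2]
        exact hmax z hz
    have hx1 : ⟪y', x₀⟫_ℝ = 1 := by
      rw [hin, ← hm, inv_mul_cancel₀ hm0.ne']
    obtain ⟨w, hw, hw1, hwx⟩ := Finset.mem_convexHull'.1 (hp.hullH y' hleV)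
    obtain ⟨h, hh, hwh⟩ : ∃ h ∈ H, w h ≠ 0 := by
      by_contra hcon
      push Not at hcon
      rw [Finset.sum_eq_zero hcon] at hw1
      exact zero_ne_one hw1
    have hT : ∀ v ∈ T V y', ⟪h - y', v⟫_ℝ = 0 := by
      intro v hv
      obtain ⟨hvV, hv1⟩ := Finset.mem_filter.1 hv
      have k1 := weight_zero (V := H) (y := v) (x := y')
        (fun h' hh' => by rw [real_inner_comm]; exact hle h' hh' v hvV) hw hw1 hwx
        (by rw [real_inner_comm]; exact hv1) h hh hwh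
      rw [real_inner_comm] at k1
      rw [inner_sub_left, k1, hv1, sub_self]
    have hFh : ∀ x ∈ F, ⟪h - y', x⟫_ℝ = 0 := by
      intro x hx
      rw [hFc] at hx
      have k1 := face_aux hleV hx.1 hx.2
      have hc : Convex ℝ {z : E3 | ⟪h - y', z⟫_ℝ = 0} := convex_hyperplane
        ⟨fun a b => inner_add_right _ _ _, fun c a => by rw [inner_smul_right]; rfl⟩ 0
      exact convexHull_min (fun v hv => hT v hv) hc k1
    have hhy : h = y' := by
      by_contra hne
      have hne' : h - y' ≠ 0 := sub_ne_zero.2 hne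
      have k1 := vspan_le (F := F) (y := h - y') (c := 0) hFh
      have k2 : vectorSpan ℝ F = (ℝ ∙ (h - y'))ᗮ :=
        Submodule.eq_of_le_of_finrank_eq k1 (by rw [h3, finrank_orth hne'])
      have k3 : x₀ ∈ vectorSpan ℝ F := by
        rw [k2, Submodule.mem_orthogonal_singleton_iff_inner_right]
        exact hFh x₀ hx₀
      have k4 := vspan_le (F := F) (y := y') (c := 1) (fun x hx => by
        rw [hFc] at hx
        exact hx.2) k3
      rw [Submodule.mem_orthogonal_singleton_iff_inner_right] at k4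
      rw [hx1] at k4
      exact one_ne_zero k4
    exact ⟨h, hh, by rw [hFc, hhy]⟩
  · rintro ⟨h, hh, rfl⟩
    obtain ⟨f, hf1, hf2⟩ := b6 h hh
    have hne : (T V h).Nonempty := ⟨f 0, hf1 0⟩
    have hfF : ∀ i, f i ∈ Fc V h := fun i =>
      ⟨subset_convexHull ℝ _ (Finset.mem_filter.1 (hf1 i)).1, (Finset.mem_filter.1 (hf1 i)).2⟩
    refine ⟨Fc_exposed (hle h hh) hne, ⟨f 0, hfF 0⟩, ?_⟩
    show finrank ℝ (vectorSpan ℝ (Fc V h)) = 2
    have hh0 : h ≠ 0 := by
      intro h0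
      have := (Finset.mem_filter.1 (hf1 0)).2
      rw [h0, inner_zero_left] at this
      exact zero_ne_one this
    apply le_antisymm
    · rw [← finrank_orth hh0]
      exact Submodule.finrank_mono (vspan_le fun x hx => hx.2)
    · have k1 : AffineIndependent ℝ f := hf2.affineIndependent
      have k2 : finrank ℝ (vectorSpan ℝ (Set.range f)) = 2 :=
        k1.finrank_vectorSpan (by simp)
      rw [← k2]
      exact Submodule.finrank_mono (vectorSpan_mono ℝ (by rintro _ ⟨i, rfl⟩; exact hfF i))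

theorem s_PF (hb : S_BAS) : S_PF := by
  intro V H hp
  obtain ⟨b1, b2, b3, b4, b5, b6⟩ := hb V H hp
  constructor
  · show Set.ncard _ = V.card
    rw [faces_zero hp, Set.ncard_image_of_injective _ Set.singleton_injective,
      Set.ncard_coe_finset]
  · show Set.ncard _ = H.card
    rw [faces_two hb hp, Set.InjOn.ncard_image, Set.ncard_coe_finset]
    intro h hh h' hh' heq
    refine (b5 h hh h' fun v hv => ?_).symm
    have h1 : v ∈ Fc V h := ⟨subset_convexHull ℝ _ (Finset.mem_filter.1 hv).1,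
      (Finset.mem_filter.1 hv).2⟩
    have heq' : Fc V h = Fc V h' := heq
    rw [heq'] at h1
    exact h1.2

end Pool.Agent.L7h25.SY
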