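import Pool.Agent.L7h25.SY.Edg
import Pool.Agent.L7h98.SY.Eul2

set_option autoImplicit false

/-! Project SY, part EUL: Euler's formula for dual pairs. -/

namespace Pool.Agent.L7h25.SY

open Pool.Agent.L7h98.SY

theorem s_EUL (hb : S_BAS) (hw : S_SW) : S_EUL := by
  intro V H hp
  have h1 := edges hb hp
  have h2 := hw V H hp
  have h3 := Pool.Agent.L7h98.SY.sweep_ge hb hp
  omega

end Pool.Agent.L7h25.SY
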